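import Pool.Agent.Helper20.EQ.St4

set_option autoImplicit false

/-!
# Project EQ (MP_cb927e_an), module NVB: numbers
-/

open MeasureTheory Set Filter Topology
open scoped ENNReal RealInnerProductSpace

namespace Pool.Agent.Helper41.EQ

open Pool.Agent.Helper20.RG Pool.Agent.Helper20.EQ

/-- choice of `T` -/
private theorem chT_NVB {W N A p : ℝ} (hW : 1 ≤ W) (hN : 1 ≤ N) (hA : 0 ≤ A) (hp : 0 < p) :
    ∃ T : ℕ, 1 ≤ T ∧ (T : ℝ) + W * (1 + N * (A * (T : ℝ) ^ (-(1 / p)))) ≤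
      (2 + A) * (W * N) ^ (p / (p + 1)) + W := by
  have hWN : 1 ≤ W * N := one_le_mul_of_one_le_of_one_le hW hN
  have hWN0 : 0 < W * N := by linarith
  set Y : ℝ := (W * N) ^ (p / (p + 1)) with hY
  have hY1 : 1 ≤ Y := Real.one_le_rpow hWN (by positivity)
  refine ⟨⌈Y⌉₊, ?_, ?_⟩
  · exact Nat.one_le_ceil_iff.2 (by linarith)
  · have hT1 : (⌈Y⌉₊ : ℝ) ≤ 2 * Y := by
      have := Nat.ceil_lt_add_one (by linarith : (0 : ℝ) ≤ Y)
      linarith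
    have hT2 : Y ≤ (⌈Y⌉₊ : ℝ) := Nat.le_ceil Y
    have h1 : ((⌈Y⌉₊ : ℕ) : ℝ) ^ (-(1 / p)) ≤ Y ^ (-(1 / p)) :=
      Real.rpow_le_rpow_of_nonpos (by linarith) hT2 (by
        have : 0 < 1 / p := by positivity
        linarith)
    have h2 : Y ^ (-(1 / p)) = (W * N) ^ (-(1 / (p + 1))) := by
      rw [hY, ← Real.rpow_mul hWN0.le]
      congr 1
      field_simp
    have h3 : W * N * (W * N) ^ (-(1 / (p + 1))) = Y := by
      rw [hY]
      nth_rewrite 1 [← Real.rpow_one (W * N)]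
      rw [← Real.rpow_add hWN0]
      congr 1
      field_simp
      ring
    have h4 : W * (1 + N * (A * ((⌈Y⌉₊ : ℕ) : ℝ) ^ (-(1 / p)))) ≤ W + A * Y := by
      have h5 : W * (1 + N * (A * ((⌈Y⌉₊ : ℕ) : ℝ) ^ (-(1 / p)))) =
          W + A * (W * N * ((⌈Y⌉₊ : ℕ) : ℝ) ^ (-(1 / p))) := by ring
      rw [h5]
      have h6 : W * N * ((⌈Y⌉₊ : ℕ) : ℝ) ^ (-(1 / p)) ≤ Y :=
        calc W * N * ((⌈Y⌉₊ : ℕ) : ℝ) ^ (-(1 / p)) ≤ W * N * Y ^ (-(1 / p)) :=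
              mul_le_mul_of_nonneg_left h1 hWN0.le
          _ = W * N * (W * N) ^ (-(1 / (p + 1))) := by rw [h2]
          _ = Y := h3
      have := mul_le_mul_of_nonneg_left h6 hA
      linarith
    have h7 : (2 + A) * Y + W = 2 * Y + (W + A * Y) := by ring
    rw [h7]
    linarith

/-- the bound of the choice -/
private theorem bd_NVB {W N A p c m : ℝ} (hW : 1 ≤ W) (hN : 1 ≤ N) (hA : 0 ≤ A) (hp : 0 < p)
    (hm : 1 ≤ m) (hc : 0 ≤ c) (h : W ≤ c * (N ^ p * m ^ (-p))) :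
    (2 + A) * (W * N) ^ (p / (p + 1)) + W ≤
      (3 + A) * (1 + c) * (N ^ p * m ^ (-(p ^ 2 / (p + 1)))) := by
  have hN0 : 0 < N := by linarith
  have hm0 : 0 < m := by linarith
  have hq0 : 0 ≤ p / (p + 1) := by positivity
  have hq1 : p / (p + 1) ≤ 1 := by
    rw [div_le_one (by linarith)]
    linarith
  have h1 : W * N ≤ c * (N ^ (p + 1) * m ^ (-p)) := by
    rw [Real.rpow_add hN0, Real.rpow_one]
    calc W * N ≤ c * (N ^ p * m ^ (-p)) * N := mul_le_mul_of_nonneg_right h hN0.le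
      _ = c * (N ^ p * N * m ^ (-p)) := by ring
  have h2 : (W * N) ^ (p / (p + 1)) ≤ (1 + c) * (N ^ p * m ^ (-(p ^ 2 / (p + 1)))) := by
    refine le_trans (Real.rpow_le_rpow (by positivity) h1 hq0) ?_
    rw [Real.mul_rpow hc (by positivity), Real.mul_rpow (by positivity) (by positivity),
      ← Real.rpow_mul hN0.le, ← Real.rpow_mul hm0.le]
    have e1 : (p + 1) * (p / (p + 1)) = p := by field_simp
    have e2 : -p * (p / (p + 1)) = -(p ^ 2 / (p + 1)) := by ring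
    rw [e1, e2]
    refine mul_le_mul_of_nonneg_right ?_ (by positivity)
    calc c ^ (p / (p + 1)) ≤ (1 + c) ^ (p / (p + 1)) :=
          Real.rpow_le_rpow hc (by linarith) hq0
      _ ≤ (1 + c) ^ (1 : ℝ) := Real.rpow_le_rpow_of_exponent_le (by linarith) hq1
      _ = 1 + c := Real.rpow_one _
  have h3 : m ^ (-p) ≤ m ^ (-(p ^ 2 / (p + 1))) := by
    refine Real.rpow_le_rpow_of_exponent_le hm ?_
    have : p ^ 2 / (p + 1) ≤ p := by
      rw [div_le_iff₀ (by linarith)]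
      nlinarith
    linarith
  have h4 : W ≤ (1 + c) * (N ^ p * m ^ (-(p ^ 2 / (p + 1)))) := by
    refine le_trans h ?_
    refine mul_le_mul (by linarith) (mul_le_mul_of_nonneg_left h3 (by positivity))
      (by positivity) (by linarith)
  have h5 := mul_le_mul_of_nonneg_left h2 (by linarith : 0 ≤ 2 + A)
  calc (2 + A) * (W * N) ^ (p / (p + 1)) + W
      ≤ (2 + A) * ((1 + c) * (N ^ p * m ^ (-(p ^ 2 / (p + 1))))) +
        (1 + c) * (N ^ p * m ^ (-(p ^ 2 / (p + 1)))) := add_le_add h5 h4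
    _ = _ := by ring

/-- from the number of hits to the bound for the window -/
private theorem wn_NVB {N A p Z m : ℝ} (hN : 0 < N) (hA : 0 ≤ A) (hp : 0 < p) (hZ : 0 < Z)
    (hm : 400 ≤ m) (h : m < 200 * (1 + N * (A * Z ^ (-(1 / p))))) :
    Z ≤ (400 * A) ^ p * (N ^ p * m ^ (-p)) := by
  have hm0 : 0 < m := by linarith
  have h1 : m < 400 * A * N * Z ^ (-(1 / p)) := by nlinarith
  have hZp : 0 < Z ^ (1 / p) := Real.rpow_pos_of_pos hZ _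
  have h2 : Z ^ (1 / p) ≤ 400 * A * N * m⁻¹ := by
    rw [Real.rpow_neg hZ.le] at h1
    rw [← div_eq_mul_inv, le_div_iff₀ hm0]
    rw [← div_eq_mul_inv, lt_div_iff₀ hZp] at h1
    linarith
  have h3 : Z = (Z ^ (1 / p)) ^ p := by
    rw [← Real.rpow_mul hZ.le, one_div_mul_cancel hp.ne', Real.rpow_one]
  calc Z = (Z ^ (1 / p)) ^ p := h3
    _ ≤ (400 * A * N * m⁻¹) ^ p := Real.rpow_le_rpow hZp.le h2 hp.le
    _ = _ := by
      rw [Real.mul_rpow (by positivity) (by positivity),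
        Real.mul_rpow (by positivity) (by positivity), Real.rpow_neg hm0.le, Real.inv_rpow hm0.le]
      ring

private theorem two_NVB (n : ℕ) : (n : ℝ) ≤ (2 : ℝ) ^ n := by
  exact_mod_cast (Nat.lt_two_pow_self (n := n)).le

private theorem Ms_NVB {v : ℕ} (hv : (2 : ℝ) ≤ v) : 0 ≤ Ms v ∧ Ms v ≤ 64 * (v : ℝ) ^ 2 := by
  unfold Ms
  constructor
  · positivity
  · nlinarith

private theorem W1_NVB {v : ℝ} {b : ℕ} (hv : 2 ≤ v) : 1 ≤ (2 : ℝ) ^ b * (1024 * v ^ 2) := by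
  have h1 : (1 : ℝ) ≤ (2 : ℝ) ^ b := one_le_pow₀ (by norm_num)
  nlinarith

private theorem c_NVB {c₀ v : ℝ} (hc : 0 ≤ c₀) (hv : 2 ≤ v) : 1 + c₀ * v ≤ v * (1 + c₀) := by
  nlinarith

private theorem k_NVB {p : ℝ} (hp2 : 2 < p) (hp3 : p < 3) : 1 + p ^ 2 / (p + 1) ≤ 4 := by
  have : p ^ 2 / (p + 1) ≤ 3 := by
    rw [div_le_iff₀ (by linarith)]
    nlinarith
  linarith

private theorem x_NVB {p t : ℝ} (hp2 : 2 < p) (hp3 : p < 3) (ht : 0 ≤ t) :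
    dl p * t + t / 2 ≤ (1 - e1 p) * t := by
  unfold dl e1
  nlinarith

/-- the final exponent -/
private theorem ex_NVB {p u t ρ : ℝ} (hp2 : 2 < p) (hp3 : p < 3) (ht : 0 ≤ t) (hρ : 0 ≤ ρ) :
    2 * ρ + p * u - (1 - (3 - p) / 100) * t * (1 + p ^ 2 / (p + 1)) + 10 * ((3 - p) / 2000 * t) ≤
      p * u - p * (t - ρ) - (3 - p) / 100 * t := by
  have h1 : p ^ 2 / (p + 1) = p - 1 + 1 / (p + 1) := by
    field_simp
    ring
  have h2 : 1 / 4 ≤ 1 / (p + 1) := one_div_le_one_div_of_le (by linarith) (by linarith)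
  have h3 : 1 / (p + 1) ≤ 1 / 3 := one_div_le_one_div_of_le (by norm_num) (by linarith)
  rw [h1]
  set y := 1 / (p + 1)
  have h4 : 0 ≤ (p - 2) * ρ := mul_nonneg (by linarith) hρ
  have h5 : 0 ≤ t * ((1 - (3 - p) / 100) * (p + y) - p - (3 - p) / 100 - (3 - p) / 200) := by
    refine mul_nonneg ht ?_
    nlinarith
  nlinarith

theorem hNVB : StNVB := by
  intro Cf A p Cρ hCf hA hp2 hp3
  have hp0 : 0 < p := by linarith
  set c₀ : ℝ := 512 * (400 * A) ^ p with hc₀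
  have hc₀0 : 0 ≤ c₀ := by positivity
  refine ⟨8000 * (Cρ + 1), 4 * 4096 * 16 * 16 * 10 ^ 4 * Cf * ((3 + A) * (1 + c₀)) *
    ((Cρ : ℝ) + 1) ^ 10, by positivity, ?_⟩
  intro u v t ρ η m₁ b ht hNu hb1 hb2 hm
  obtain ⟨hu2, hv, hut, htu, hρ, hη, hm₁⟩ := hNu
  have hu2' : (2 : ℝ) ≤ u := by exact_mod_cast hu2
  have hCρ : (0 : ℝ) ≤ Cρ := Nat.cast_nonneg _
  have hv' : (v : ℝ) = ((Cρ : ℝ) + 1) * u := by rw [hv]; push_cast; ring
  have hv2 : (2 : ℝ) ≤ v := by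
    rw [hv']
    have := mul_nonneg hCρ (by linarith : (0 : ℝ) ≤ u)
    linarith
  have ht0 : (0 : ℝ) ≤ t := Nat.cast_nonneg _
  set N : ℝ := (2 : ℝ) ^ u with hN
  have hN1 : 1 ≤ N := one_le_pow₀ (by norm_num)
  set X : ℝ := (2 : ℝ) ^ ((1 - e1 p) * t) with hX
  have hX0 : 0 < X := Real.rpow_pos_of_pos (by norm_num) _
  have hm0 : 0 < m₁ := by rw [hm₁]; positivity
  have hvt : (v : ℝ) ≤ ((Cρ : ℝ) + 1) * (2 : ℝ) ^ (dl p * t) := by
    rw [hv']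
    exact mul_le_mul_of_nonneg_left hut (by linarith)
  -- inverse of `m₁`
  have hminv : m₁⁻¹ ≤ 10 * v * X⁻¹ := by
    rw [hm₁, inv_div, div_eq_mul_inv]
    refine mul_le_mul_of_nonneg_right ?_ (by positivity)
    linarith
  have hm400 : 400 ≤ m₁ := by
    have h1 : (2 : ℝ) ^ (dl p * t) * (2 : ℝ) ^ ((t : ℝ) / 2) ≤ X := by
      rw [hX, ← Real.rpow_add (by norm_num)]
      exact Real.rpow_le_rpow_of_exponent_le (by norm_num) (x_NVB hp2 hp3 ht0)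
    have h2 : 4000 * ((Cρ : ℝ) + 1) ≤ (2 : ℝ) ^ ((t : ℝ) / 2) := by
      have h3 := two_NVB (4000 * (Cρ + 1))
      have h4 : (2 : ℝ) ^ (4000 * (Cρ + 1)) ≤ (2 : ℝ) ^ ((t : ℝ) / 2) := by
        rw [← Real.rpow_natCast]
        refine Real.rpow_le_rpow_of_exponent_le (by norm_num) ?_
        have : ((8000 * (Cρ + 1) : ℕ) : ℝ) ≤ t := by exact_mod_cast ht
        push_cast at this ⊢
        linarith
      push_cast at h3
      linarith
    rw [hm₁, le_div_iff₀ (by positivity)]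
    have h5 : 0 < (2 : ℝ) ^ (dl p * t) := Real.rpow_pos_of_pos (by norm_num) _
    calc 400 * (2 * (3 * (v : ℝ) + 2)) ≤ 4000 * v := by linarith
      _ ≤ 4000 * (((Cρ : ℝ) + 1) * (2 : ℝ) ^ (dl p * t)) :=
        mul_le_mul_of_nonneg_left hvt (by norm_num)
      _ = (2 : ℝ) ^ (dl p * t) * (4000 * ((Cρ : ℝ) + 1)) := by ring
      _ ≤ (2 : ℝ) ^ (dl p * t) * (2 : ℝ) ^ ((t : ℝ) / 2) := mul_le_mul_of_nonneg_left h2 h5.le
      _ ≤ X := h1
  have hm1 : 1 ≤ m₁ := by linarith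
  -- the window
  set Z : ℝ := (2 : ℝ) ^ (b + 1) * v with hZ
  have hZ0 : 0 < Z := by positivity
  set W : ℝ := (2 : ℝ) ^ b * (1024 * (v : ℝ) ^ 2) with hW
  have hWZ : W = 512 * v * Z := by
    rw [hW, hZ, pow_succ]
    ring
  have hW1 : 1 ≤ W := W1_NVB hv2
  have hZb := wn_NVB (N := N) (by linarith) hA hp0 hZ0 hm400 hm
  have hWb : W ≤ (c₀ * v) * (N ^ p * m₁ ^ (-p)) := by
    rw [hWZ, hc₀]
    calc 512 * (v : ℝ) * Z ≤ 512 * v * ((400 * A) ^ p * (N ^ p * m₁ ^ (-p))) :=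
          mul_le_mul_of_nonneg_left hZb (by positivity)
      _ = _ := by ring
  obtain ⟨T, hT1, hT2⟩ := chT_NVB hW1 hN1 hA hp0
  refine ⟨T, hT1, ?_⟩
  have hmu : Pool.Agent.Helper20.RG.mu u A p W T ≤
      (v : ℝ) * ((3 + A) * (1 + c₀)) * (N ^ p * m₁ ^ (-(p ^ 2 / (p + 1)))) := by
    refine le_trans hT2 (le_trans (bd_NVB hW1 hN1 hA hp0 hm1 (by positivity) hWb) ?_)
    refine mul_le_mul_of_nonneg_right ?_ (by positivity)
    have := mul_le_mul_of_nonneg_left (c_NVB hc₀0 hv2) (by linarith : 0 ≤ 3 + A)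
    linarith
  have hMs : (2 * Ms v / η) ^ 2 ≤ 4 * 4096 * 16 * (v : ℝ) ^ 4 * (2 : ℝ) ^ (2 * (ρ : ℝ)) := by
    obtain ⟨h0, h1⟩ := Ms_NVB hv2
    have h2 : η⁻¹ = 4 * (2 : ℝ) ^ (ρ : ℝ) := by
      rw [hη, ← zpow_neg, neg_neg, zpow_add₀ (by norm_num), Real.rpow_natCast, zpow_natCast]
      norm_num
      ring
    have h3 : 2 * Ms v / η ≤ 512 * (v : ℝ) ^ 2 * (2 : ℝ) ^ (ρ : ℝ) := by
      rw [div_eq_mul_inv, h2]
      have h4 : 0 < (2 : ℝ) ^ (ρ : ℝ) := Real.rpow_pos_of_pos (by norm_num) _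
      calc 2 * Ms v * (4 * (2 : ℝ) ^ (ρ : ℝ)) = Ms v * (8 * (2 : ℝ) ^ (ρ : ℝ)) := by ring
        _ ≤ 64 * (v : ℝ) ^ 2 * (8 * (2 : ℝ) ^ (ρ : ℝ)) :=
          mul_le_mul_of_nonneg_right h1 (by positivity)
        _ = _ := by ring
    have h5 : 0 ≤ 2 * Ms v / η := by
      rw [div_eq_mul_inv, h2]
      positivity
    calc (2 * Ms v / η) ^ 2 ≤ (512 * (v : ℝ) ^ 2 * (2 : ℝ) ^ (ρ : ℝ)) ^ 2 :=
          pow_le_pow_left₀ h5 h3 2
      _ = 4 * 4096 * 16 * (v : ℝ) ^ 4 * ((2 : ℝ) ^ (ρ : ℝ) * (2 : ℝ) ^ (ρ : ℝ)) := by ring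
      _ = _ := by
        rw [← Real.rpow_add (by norm_num)]
        congr 2
        ring
  set κ : ℝ := 1 + p ^ 2 / (p + 1) with hκ
  have hκ0 : 0 ≤ κ := by positivity
  have hκ4 : κ ≤ 4 := k_NVB hp2 hp3
  -- the power of `m₁`
  have hmκ : 1 / m₁ * m₁ ^ (-(p ^ 2 / (p + 1))) ≤
      10 ^ 4 * (v : ℝ) ^ 4 * (2 : ℝ) ^ (-((1 - e1 p) * t * κ)) := by
    have h1 : 1 / m₁ * m₁ ^ (-(p ^ 2 / (p + 1))) = (m₁⁻¹) ^ κ := by
      rw [one_div, hκ, Real.inv_rpow hm0.le, ← Real.rpow_neg hm0.le, neg_add,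
        Real.rpow_add hm0, Real.rpow_neg_one]
    rw [h1]
    refine le_trans (Real.rpow_le_rpow (by positivity) hminv hκ0) ?_
    rw [Real.mul_rpow (by positivity) (by positivity)]
    have h2 : (10 * (v : ℝ)) ^ κ ≤ 10 ^ 4 * (v : ℝ) ^ 4 := by
      calc (10 * (v : ℝ)) ^ κ ≤ (10 * (v : ℝ)) ^ (4 : ℝ) :=
            Real.rpow_le_rpow_of_exponent_le (by linarith) hκ4
        _ = _ := by
          rw [show (4 : ℝ) = ((4 : ℕ) : ℝ) by norm_num, Real.rpow_natCast]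
          ring
    have h3 : (X⁻¹) ^ κ = (2 : ℝ) ^ (-((1 - e1 p) * t * κ)) := by
      rw [hX, ← Real.rpow_neg (by norm_num), ← Real.rpow_mul (by norm_num)]
      congr 1
      ring
    rw [h3]
    exact mul_le_mul_of_nonneg_right h2 (Real.rpow_pos_of_pos (by norm_num) _).le
  have hNp : N ^ p = (2 : ℝ) ^ (p * u) := by
    rw [hN, ← Real.rpow_natCast, ← Real.rpow_mul (by norm_num)]
    congr 1
    ring
  have hv10 : (v : ℝ) ^ 10 ≤ ((Cρ : ℝ) + 1) ^ 10 * (2 : ℝ) ^ (10 * (dl p * t)) := by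
    calc (v : ℝ) ^ 10 ≤ (((Cρ : ℝ) + 1) * (2 : ℝ) ^ (dl p * t)) ^ 10 :=
          pow_le_pow_left₀ (by positivity) hvt 10
      _ = _ := by
        rw [mul_pow]
        congr 1
        rw [← Real.rpow_natCast, ← Real.rpow_mul (by norm_num)]
        congr 1
        push_cast
        ring
  -- assembly
  have hG : 0 ≤ (3 + A) * (1 + c₀) := by positivity
  have s1 : 16 * (v : ℝ) * (Cf * Pool.Agent.Helper20.RG.mu u A p W T) ≤
      16 * (v : ℝ) * (Cf * ((v : ℝ) * ((3 + A) * (1 + c₀)) *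
        (N ^ p * m₁ ^ (-(p ^ 2 / (p + 1)))))) :=
    mul_le_mul_of_nonneg_left (mul_le_mul_of_nonneg_left hmu (by linarith)) (by positivity)
  calc 1 / m₁ * (2 * Ms v / η) ^ 2 * (16 * v * (Cf * Pool.Agent.Helper20.RG.mu u A p W T))
      ≤ 1 / m₁ * (4 * 4096 * 16 * (v : ℝ) ^ 4 * (2 : ℝ) ^ (2 * (ρ : ℝ))) *
        (16 * (v : ℝ) * (Cf * ((v : ℝ) * ((3 + A) * (1 + c₀)) *
        (N ^ p * m₁ ^ (-(p ^ 2 / (p + 1))))))) := by
        refine mul_le_mul (mul_le_mul_of_nonneg_left hMs (by positivity)) s1 ?_ (by positivity)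
        unfold Pool.Agent.Helper20.RG.mu
        positivity
    _ = 4 * 4096 * 16 * 16 * Cf * ((3 + A) * (1 + c₀)) * (v : ℝ) ^ 6 *
        ((2 : ℝ) ^ (2 * (ρ : ℝ)) * N ^ p) * (1 / m₁ * m₁ ^ (-(p ^ 2 / (p + 1)))) := by ring
    _ ≤ 4 * 4096 * 16 * 16 * Cf * ((3 + A) * (1 + c₀)) * (v : ℝ) ^ 6 *
        ((2 : ℝ) ^ (2 * (ρ : ℝ)) * N ^ p) *
        (10 ^ 4 * (v : ℝ) ^ 4 * (2 : ℝ) ^ (-((1 - e1 p) * t * κ))) :=
        mul_le_mul_of_nonneg_left hmκ (by positivity)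
    _ = 4 * 4096 * 16 * 16 * 10 ^ 4 * Cf * ((3 + A) * (1 + c₀)) *
        ((2 : ℝ) ^ (2 * (ρ : ℝ)) * N ^ p * (2 : ℝ) ^ (-((1 - e1 p) * t * κ))) *
        (v : ℝ) ^ 10 := by ring
    _ ≤ 4 * 4096 * 16 * 16 * 10 ^ 4 * Cf * ((3 + A) * (1 + c₀)) *
        ((2 : ℝ) ^ (2 * (ρ : ℝ)) * N ^ p * (2 : ℝ) ^ (-((1 - e1 p) * t * κ))) *
        (((Cρ : ℝ) + 1) ^ 10 * (2 : ℝ) ^ (10 * (dl p * t))) :=
        mul_le_mul_of_nonneg_left hv10 (by positivity)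
    _ = 4 * 4096 * 16 * 16 * 10 ^ 4 * Cf * ((3 + A) * (1 + c₀)) * ((Cρ : ℝ) + 1) ^ 10 *
        (2 : ℝ) ^ (2 * (ρ : ℝ) + p * u - (1 - e1 p) * t * κ + 10 * (dl p * t)) := by
        have h1 : (2 : ℝ) ^ (2 * (ρ : ℝ) + p * u - (1 - e1 p) * t * κ + 10 * (dl p * t)) =
            (2 : ℝ) ^ (2 * (ρ : ℝ)) * (2 : ℝ) ^ (p * u) * (2 : ℝ) ^ (-((1 - e1 p) * t * κ)) *
              (2 : ℝ) ^ (10 * (dl p * t)) := by
          rw [← Real.rpow_add (by norm_num), ← Real.rpow_add (by norm_num),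
            ← Real.rpow_add (by norm_num)]
          congr 1
        rw [hNp, h1]
        ring
    _ ≤ _ := by
        refine mul_le_mul_of_nonneg_left ?_ (by positivity)
        refine Real.rpow_le_rpow_of_exponent_le (by norm_num) ?_
        unfold tg
        have := ex_NVB (p := p) (u := u) (t := t) (ρ := ρ) hp2 hp3 ht0 (Nat.cast_nonneg _)
        unfold e1 dl
        rw [hκ]
        linarith

end Pool.Agent.Helper41.EQ
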